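import Pool.Agent.R832.Frontier.Main

/-!
# The frontier property fails for `T = (1, 3^k, 1)`, for every `k ≥ 3`

Write `A = R / I`, `R = K[x, y, z]`. For `t ∈ K` let `I_t` be the ideal of the polynomials `f` with
`f_1 = f_x = 0`, `f_{y^b} = 0` (`b ≤ k`), `f_{y^b z} = 0` (`b ≤ k`) and
`f_{y^b z^2} + t f_{x y^(b+1)} = 0` (`b ≤ k - 2`), where `f_m` is the coefficient of `m`, and let `J` be the
monomial ideal with the standard monomials `x`, `y^b` (`b ≤ k`), `y^b z`, `y^b z^2` (`b ≤ k - 1`).

* For `t ≠ 0`: `β_{3,4} (I_t) = 0` and `β_{3,k+3} (I_t) ≠ 0`.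
* `I_0` and `J` have the same Betti table; `I_0` is in the closure of the stratum of `I_t` for some
  `t ≠ 0` (there are only finitely many Betti tables).
* If `β_{3,4} (I) = 0` and `β_{3,k+3} (I) ≠ 0`, then the pairing `A_1 × A_k → A_{k+1}` is degenerate, so
  `ℓ A_k = 0` for some nonzero `ℓ ∈ A_1`, and some `w = x_a ℓ ≠ 0` has `w A_{k-1} = 0`: the pairing
  `A_2 × A_{k-1} → A_{k+1}` is degenerate. It is nondegenerate for `J`; so `J` is not in the closure.
-/

set_option autoImplicit false

namespace Pool.Agent.Results.MP_b99c49_ag.FrontierFails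

open Pool.Agent.R832.Frontier

universe u

/-- For `T = (1, 3^k, 1)`, `k ≥ 3`, over an algebraically closed field, the Betti strata of `G_T` do
not satisfy the frontier property. -/
theorem result (K : Type u) [Field K] [IsAlgClosed K] (k : ℕ) (hk : 3 ≤ k) :
    ¬ FrontierProperty K k :=
  not_frontier hk

end Pool.Agent.Results.MP_b99c49_ag.FrontierFails
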